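import Pool.Agent.H15.Cpk6

set_option autoImplicit false

namespace Pool.Agent.Results.MP_e3a8c8_an.Converse

open ComplexConjugate Matrix Pool.Agent.H15.Cpk
open scoped ComplexOrder

variable {X : Type*}

/-- A kernel on `X`: all finite Gram matrices are positive semidefinite. -/
def IsKernel (k : X → X → ℂ) : Prop :=
  ∀ (n : ℕ) (z : Fin n → X), (Matrix.of fun i j => k (z i) (z j)).PosSemidef

/-- The kernel `k^z`. -/
noncomputable def defl (k : X → X → ℂ) (z : X) : X → X → ℂ :=
  fun x y => k x y - k x z * k z y / k z z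

/-- Shimorin certificate. -/
def Certificate (k l : X → X → ℂ) (p : X → X → X → ℂ) : Prop :=
  ∀ z, IsKernel (p z) ∧ IsKernel (fun x y => defl l z x y - p z x y * l x y) ∧
    IsKernel (fun x y => p z x y * k x y - defl k z x y)

/-- The block matrix with blocks `l(z_i,z_j) I - k(z_i,z_j) W_i W_j^*`. -/
noncomputable def pick (k l : X → X → ℂ) {n N : ℕ} (z : Fin n → X)
    (W : Fin n → Matrix (Fin N) (Fin N) ℂ) : Matrix (Fin n × Fin N) (Fin n × Fin N) ℂ :=
  Matrix.of fun p q =>
    (l (z p.1) (z q.1) • (1 : Matrix (Fin N) (Fin N) ℂ)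
      - k (z p.1) (z q.1) • (W p.1 * (W q.1)ᴴ)) p.2 q.2

/-- Contractive multiplier: `l(z,w) I - k(z,w) Φ(z) Φ(w)^*` is a positive matrix kernel. -/
def Contractive (k l : X → X → ℂ) {N : ℕ} (Φ : X → Matrix (Fin N) (Fin N) ℂ) : Prop :=
  ∀ (m : ℕ) (x : Fin m → X), (pick k l x fun i => Φ (x i)).PosSemidef

/-- Complete Pick pair. -/
def CPPair (k l : X → X → ℂ) : Prop :=
  ∀ (n N : ℕ), 1 ≤ n → 1 ≤ N → ∀ (z : Fin n → X) (W : Fin n → Matrix (Fin N) (Fin N) ℂ),
    (pick k l z W).PosSemidef →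
      ∃ Φ : X → Matrix (Fin N) (Fin N) ℂ, Contractive k l Φ ∧ ∀ i, Φ (z i) = W i

theorem fm_reindex {ι ι' σ σ' : Type} [Fintype ι] [Fintype ι'] [Fintype σ] [Fintype σ']
    (e : ι' ≃ ι) (f : σ' ≃ σ) (c : ι → ι → ℂ) (x : ι → σ → ℂ) :
    fm σ' (fun i j => c (e i) (e j)) (fun i => x (e i) ∘ f) (fun i => x (e i) ∘ f)
      = fm σ c x x := by
  rw [fm_apply, fm_apply, ← e.sum_comp]
  refine Finset.sum_congr rfl fun i _ => ?_
  rw [← e.sum_comp]
  refine Finset.sum_congr rfl fun j _ => ?_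
  congr 1
  exact comp_equiv_dotProduct_comp_equiv (star (x (e i))) (x (e j)) f

theorem con_reindex {ι ι' σ σ' : Type} [Fintype ι] [Fintype ι'] [Fintype σ] [Fintype σ']
    (e : ι' ≃ ι) (f : σ' ≃ σ) (cl ck : ι → ι → ℂ) (V : ι → Matrix σ σ ℂ)
    (h : ∀ x, H15.Cpk.Con cl ck V x) (y : ι' → σ' → ℂ) :
    H15.Cpk.Con (fun i j => cl (e i) (e j)) (fun i j => ck (e i) (e j))
      (fun i => (V (e i)).submatrix f f) y := by
  have h1 := h (fun i => y (e.symm i) ∘ f.symm)
  unfold H15.Cpk.Con at h1 ⊢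
  rw [← fm_reindex e f cl, ← fm_reindex e f ck] at h1
  have e1 : (fun i => (y (e.symm (e i)) ∘ f.symm) ∘ f) = y := by
    funext i a; simp
  rw [e1] at h1
  simpa only [submatrix_mulVec_equiv, Equiv.symm_apply_apply] using h1

theorem kq_of {k : X → X → ℂ} (hk : IsKernel k) : Kq k := by
  constructor
  · intro x y
    have := (hk 2 ![x, y]).1.apply 1 0
    simpa using this.symm
  · intro ι _ z σ _ x
    rw [← fm_reindex (Fintype.equivFin ι).symm (Equiv.refl σ)]
    set z' := fun i => z ((Fintype.equivFin ι).symm i)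
    set x' := fun i => x ((Fintype.equivFin ι).symm i) ∘ Equiv.refl σ
    have h1 : fm σ (fun i j => k (z' i) (z' j)) x' x'
        = ∑ a, star (fun i => x' i a) ⬝ᵥ ((Matrix.of fun i j => k (z' i) (z' j)) *ᵥ fun i => x' i a) := by
      simp only [fm_apply, dotProduct, mulVec, Finset.mul_sum, of_apply, Pi.star_apply]
      symm
      rw [Finset.sum_comm]
      refine Finset.sum_congr rfl fun i _ => ?_
      rw [Finset.sum_comm]
      refine Finset.sum_congr rfl fun a _ => Finset.sum_congr rfl fun j _ => ?_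
      ring
    have h2 : (0 : ℂ) ≤ fm σ (fun i j => k (z' i) (z' j)) x' x' := by
      rw [h1]
      exact Finset.sum_nonneg fun a _ => (hk _ z').dotProduct_mulVec_nonneg _
    exact (Complex.le_def.mp h2).1

theorem pick_form (k l : X → X → ℂ) {n N : ℕ} (z : Fin n → X)
    (W : Fin n → Matrix (Fin N) (Fin N) ℂ) (y : Fin n × Fin N → ℂ) :
    star y ⬝ᵥ (pick k l z W *ᵥ y)
      = fm _ (fun i j => l (z i) (z j)) (fun i a => y (i, a)) (fun i a => y (i, a))
        - fm _ (fun i j => k (z i) (z j)) (fun i => (W i)ᴴ *ᵥ fun a => y (i, a))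
          (fun i => (W i)ᴴ *ᵥ fun a => y (i, a)) := by
  have h1 : star y ⬝ᵥ (pick k l z W *ᵥ y) = ∑ i, ∑ j, star (fun a => y (i, a)) ⬝ᵥ
      ((l (z i) (z j) • (1 : Matrix (Fin N) (Fin N) ℂ) - k (z i) (z j) • (W i * (W j)ᴴ)) *ᵥ
        fun a => y (j, a)) := by
    simp only [dotProduct, mulVec, pick, Fintype.sum_prod_type, of_apply, Finset.mul_sum,
      Pi.star_apply]
    refine Finset.sum_congr rfl fun i _ => ?_
    rw [Finset.sum_comm]
  rw [h1, fm_apply, fm_apply, ← Finset.sum_sub_distrib]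
  refine Finset.sum_congr rfl fun i _ => ?_
  rw [← Finset.sum_sub_distrib]
  refine Finset.sum_congr rfl fun j _ => ?_
  rw [sub_mulVec, smul_mulVec, smul_mulVec, one_mulVec, dotProduct_sub, dotProduct_smul,
    dotProduct_smul, star_mulVec, conjTranspose_conjTranspose, ← mulVec_mulVec,
    dotProduct_mulVec _ (W i), smul_eq_mul, smul_eq_mul]

theorem pick_iff {k l : X → X → ℂ} (hk : ∀ x y, k y x = conj (k x y))
    (hl : ∀ x y, l y x = conj (l x y)) {n N : ℕ} (z : Fin n → X)
    (W : Fin n → Matrix (Fin N) (Fin N) ℂ) :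
    (pick k l z W).PosSemidef ↔
      ∀ x, H15.Cpk.Con (fun i j => l (z i) (z j)) (fun i j => k (z i) (z j)) (fun i => (W i)ᴴ) x := by
  constructor
  · intro h x
    have h1 := h.dotProduct_mulVec_nonneg (fun p => x p.1 p.2)
    rw [pick_form] at h1
    have h2 := (Complex.le_def.mp h1).1
    unfold H15.Cpk.Con
    simpa using h2
  · intro h
    refine .of_dotProduct_mulVec_nonneg ?_ ?_
    · ext p q
      have e1 : (W p.1 * (W q.1)ᴴ) p.2 q.2 = conj ((W q.1 * (W p.1)ᴴ) q.2 p.2) := by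
        have : W p.1 * (W q.1)ᴴ = (W q.1 * (W p.1)ᴴ)ᴴ := by simp [conjTranspose_mul]
        rw [this]; rfl
      simp only [pick, conjTranspose_apply, of_apply, Matrix.sub_apply, Matrix.smul_apply, smul_eq_mul,
        RCLike.star_def, map_sub, map_mul, ← hk, ← hl, e1, Matrix.one_apply, eq_comm (a := q.2)]
      split_ifs <;> simp
    · intro y
      rw [pick_form, Complex.le_def]
      have h1 := h (fun i a => y (i, a))
      unfold H15.Cpk.Con at h1
      have h2 := congrArg Complex.im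
        (fm_symm (fun i j => l (z i) (z j)) (fun i j => hl _ _) (fun i a => y (i, a))
          (fun i a => y (i, a)))
      have h3 := congrArg Complex.im
        (fm_symm (fun i j => k (z i) (z j)) (fun i j => hk _ _)
          (fun i => (W i)ᴴ *ᵥ fun a => y (i, a)) (fun i => (W i)ᴴ *ᵥ fun a => y (i, a)))
      rw [Complex.conj_im] at h2 h3
      rw [Complex.sub_re, Complex.sub_im, Complex.zero_re, Complex.zero_im]
      constructor <;> linarith

theorem cpq_of {k l : X → X → ℂ} (hk : Kq k) (hl : Kq l) (h : CPPair k l) (σ : Type)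
    [Fintype σ] : CPq k l σ := by
  intro ι _ z V hV
  have hz : Glob k l (fun _ => (0 : Matrix σ σ ℂ)) := by
    intro κ _ x v
    unfold H15.Cpk.Con
    have : (fun j => (0 : Matrix σ σ ℂ) *ᵥ v j) = 0 := by funext j; simp
    rw [this, map_zero, Complex.zero_re]
    exact hl.2 κ x σ v
  rcases isEmpty_or_nonempty ι with hι | hι
  · exact ⟨_, hz, fun i => hι.elim i⟩
  rcases isEmpty_or_nonempty σ with hσ | hσ
  · exact ⟨_, hz, fun i => Subsingleton.elim _ _⟩
  let e := (Fintype.equivFin ι).symm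
  let f := (Fintype.equivFin σ).symm
  obtain ⟨Φ, h1, h2⟩ := h _ _ Fintype.card_pos Fintype.card_pos (fun i => z (e i))
    (fun i => ((V (e i)).submatrix f f)ᴴ) (by
      rw [pick_iff hk.1 hl.1]
      simpa only [conjTranspose_conjTranspose] using con_reindex e f _ _ V hV)
  refine ⟨fun x => (Φ x)ᴴ.submatrix f.symm f.symm, ?_, ?_⟩
  · intro κ _ x v
    have h3 := (pick_iff hk.1 hl.1 _ _).mp (h1 _ fun i => x ((Fintype.equivFin κ).symm i))
    simpa only [Equiv.symm_apply_apply] using con_reindex (Fintype.equivFin κ) f.symm _ _ _ h3 v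
  · intro i
    have := h2 (e.symm i)
    simp only [Equiv.apply_symm_apply] at this
    simp [this]

theorem kq_ps {g : X → X → ℂ} (h : Kq g) {ι : Type} [Fintype ι] (z : ι → X) :
    PS (fun i j => g (z i) (z j)) :=
  ⟨fun _ _ => h.1 _ _, fun a => by
    simpa [fm_apply, dotProduct, sf] using h.2 ι z Unit (fun i _ => a i)⟩

theorem bound {g : X → X → ℂ} (h : Kq g) (h1 : ∀ x, (g x x).re ≤ 1) (x y : X) : ‖g x y‖ ≤ 2 := by
  have key : ∀ t : ℂ, 0 ≤ sf (fun i j => g (![x, y] i) (![x, y] j)) ![1, t] :=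
    fun t => (kq_ps h _).2 _
  have e1 := key 1
  have e2 := key (-1)
  have e3 := key Complex.I
  have e4 := key (-Complex.I)
  simp [sf, Fin.sum_univ_two, h.1 x y] at e1 e2 e3 e4
  have a1 : |(g x y).re| ≤ 1 := abs_le.mpr ⟨by linarith [h1 x, h1 y], by linarith [h1 x, h1 y]⟩
  have a2 : |(g x y).im| ≤ 1 := abs_le.mpr ⟨by linarith [h1 x, h1 y], by linarith [h1 x, h1 y]⟩
  linarith [Complex.norm_le_abs_re_add_abs_im (g x y)]

theorem result {X : Type*} (k l : X → X → ℂ) (hk : IsKernel k) (hl : IsKernel l)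
    (hl0 : ∀ x, l x x ≠ 0) (hcp : CPPair k l) :
    ∃ p : X → X → X → ℂ, Certificate k l p := by
  classical
  have hk' := kq_of hk
  have hl' := kq_of hl
  suffices H : ∀ w, ∃ p : X → X → ℂ, IsKernel p ∧ IsKernel (fun x y => defl l w x y - p x y * l x y)
      ∧ IsKernel (fun x y => p x y * k x y - defl k w x y) by
    choose p hp using H
    exact ⟨p, hp⟩
  intro w
  have hsym : ∀ x y, defl k w y x = conj (defl k w x y) := by
    intro x y
    simp only [defl, map_sub, map_div₀, map_mul, ← hk'.1]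
    ring
  have hle : ∀ x, (defl l w x x).re ≤ (l x x).re := by
    intro x
    have e : l x w * l w x / l w w = ((Complex.normSq (l x w) / (l w w).re : ℝ) : ℂ) := by
      rw [hl'.1 x w, Complex.mul_conj, Complex.ofReal_div, ← (hl'.diag w).2]
    have := div_nonneg (Complex.normSq_nonneg (l x w)) (hl'.diag w).1
    simp only [defl, e, Complex.sub_re, Complex.ofReal_re]
    linarith
  let T : Set (X → X → ℂ) := Set.pi Set.univ fun _ => Set.pi Set.univ fun _ => Metric.closedBall 0 2
  have hT : IsCompact T := isCompact_univ_pi fun _ => isCompact_univ_pi fun _ =>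
    isCompact_closedBall _ _
  let t : (Σ n : ℕ, (Fin n → X)) → Set (X → X → ℂ) := fun s =>
    (fun p i j => p (s.2 i) (s.2 j)) ⁻¹' {g | PS g} ∩
      ((fun p i j => defl l w (s.2 i) (s.2 j) - p (s.2 i) (s.2 j) * l (s.2 i) (s.2 j)) ⁻¹' {g | PS g}
      ∩ (fun p i j => p (s.2 i) (s.2 j) * k (s.2 i) (s.2 j) - defl k w (s.2 i) (s.2 j)) ⁻¹' {g | PS g})
  obtain ⟨p, -, hp⟩ := hT.inter_iInter_nonempty t
    (fun s => (PS_closed.preimage (by fun_prop)).inter
      ((PS_closed.preimage (by fun_prop)).inter (PS_closed.preimage (by fun_prop)))) (by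
      intro u
      let F : Finset X := u.biUnion fun s => Finset.univ.image s.2
      let z : Fin F.card → X := fun i => F.equivFin.symm i
      obtain ⟨q, hq1, hq2, hq3⟩ := fin_cert (fun i j => k (z i) (z j)) (fun i j => l (z i) (z j))
        (fun i j => defl k w (z i) (z j)) (fun i j => defl l w (z i) (z j))
        (fun i j => hk'.1 _ _) (fun i j => hl'.1 _ _) (fun i j => hsym _ _)
        (fun i j => (hl'.dfl w (hl0 w)).1 _ _) (fun i => hl'.pos _ (hl0 _)) (fun i => hle _)
        (fun A B hA hB hA0 hM => tcp2 hk' hl' hl0 (fun σ _ => cpq_of hk' hl' hcp σ) z w A B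
          hA.kq hB.kq hA0 hM)
      have hb : ∀ i, (q i i).re ≤ 1 := by
        intro i
        have h1 := (hq2.kq.diag i).1
        have h2 := hle (z i)
        have h3 := hl'.pos _ (hl0 (z i))
        simp only [Pi.sub_apply, Pi.mul_apply, Complex.sub_re] at h1
        rw [(hl'.diag (z i)).2, Complex.re_mul_ofReal] at h1
        nlinarith
      refine ⟨fun x y => if h : x ∈ F ∧ y ∈ F then q (F.equivFin ⟨x, h.1⟩) (F.equivFin ⟨y, h.2⟩)
        else 0, ?_, ?_⟩
      · intro x _ y _
        rw [mem_closedBall_zero_iff]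
        dsimp only
        split_ifs
        · exact bound hq1.kq hb _ _
        · simp
      · simp only [Set.mem_iInter]
        intro s hs
        have hm : ∀ i, s.2 i ∈ F := fun i => Finset.mem_biUnion.mpr ⟨s, hs, by simp⟩
        have h1 := kq_ps hq1.kq (fun i => F.equivFin ⟨s.2 i, hm i⟩)
        have h2 := kq_ps hq2.kq (fun i => F.equivFin ⟨s.2 i, hm i⟩)
        have h3 := kq_ps hq3.kq (fun i => F.equivFin ⟨s.2 i, hm i⟩)
        refine ⟨?_, ?_, ?_⟩
        · simpa [hm] using h1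
        · simpa [hm, z] using h2
        · simpa [hm, z] using h3)
  rw [Set.mem_iInter] at hp
  exact ⟨p, fun n z => PS.mat (hp ⟨n, z⟩).1, fun n z => PS.mat (hp ⟨n, z⟩).2.1,
    fun n z => PS.mat (hp ⟨n, z⟩).2.2⟩

end Pool.Agent.Results.MP_e3a8c8_an.Converse
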