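import Pool.Agent.H15.Cpk5

set_option autoImplicit false

namespace Pool.Agent.Results.MP_e3a8c8_an.Degenerate

open ComplexConjugate Matrix Pool.Agent.H15.Cpk
open scoped ComplexOrder

variable {X : Type*}

/-- A kernel on `X`: all finite Gram matrices are positive semidefinite. -/
def IsKernel (k : X → X → ℂ) : Prop :=
  ∀ (n : ℕ) (z : Fin n → X), (Matrix.of fun i j => k (z i) (z j)).PosSemidef

/-- The kernel `k^z`. -/
noncomputable def defl (k : X → X → ℂ) (z : X) : X → X → ℂ :=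
  fun x y => k x y - k x z * k z y / k z z

/-- Shimorin certificate. -/
def Certificate (k l : X → X → ℂ) (p : X → X → X → ℂ) : Prop :=
  ∀ z, IsKernel (p z) ∧ IsKernel (fun x y => defl l z x y - p z x y * l x y) ∧
    IsKernel (fun x y => p z x y * k x y - defl k z x y)

/-- The block matrix with blocks `l(z_i,z_j) I - k(z_i,z_j) W_i W_j^*`. -/
noncomputable def pick (k l : X → X → ℂ) {n N : ℕ} (z : Fin n → X)
    (W : Fin n → Matrix (Fin N) (Fin N) ℂ) : Matrix (Fin n × Fin N) (Fin n × Fin N) ℂ :=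
  Matrix.of fun p q =>
    (l (z p.1) (z q.1) • (1 : Matrix (Fin N) (Fin N) ℂ)
      - k (z p.1) (z q.1) • (W p.1 * (W q.1)ᴴ)) p.2 q.2

/-- Contractive multiplier: `l(z,w) I - k(z,w) Φ(z) Φ(w)^*` is a positive matrix kernel. -/
def Contractive (k l : X → X → ℂ) {N : ℕ} (Φ : X → Matrix (Fin N) (Fin N) ℂ) : Prop :=
  ∀ (m : ℕ) (x : Fin m → X), (pick k l x fun i => Φ (x i)).PosSemidef

/-- Complete Pick pair. -/
def CPPair (k l : X → X → ℂ) : Prop :=
  ∀ (n N : ℕ), 1 ≤ n → 1 ≤ N → ∀ (z : Fin n → X) (W : Fin n → Matrix (Fin N) (Fin N) ℂ),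
    (pick k l z W).PosSemidef →
      ∃ Φ : X → Matrix (Fin N) (Fin N) ℂ, Contractive k l Φ ∧ ∀ i, Φ (z i) = W i

theorem fm_reindex {ι ι' σ σ' : Type} [Fintype ι] [Fintype ι'] [Fintype σ] [Fintype σ']
    (e : ι' ≃ ι) (f : σ' ≃ σ) (c : ι → ι → ℂ) (x : ι → σ → ℂ) :
    fm σ' (fun i j => c (e i) (e j)) (fun i => x (e i) ∘ f) (fun i => x (e i) ∘ f)
      = fm σ c x x := by
  rw [fm_apply, fm_apply, ← e.sum_comp]
  refine Finset.sum_congr rfl fun i _ => ?_
  rw [← e.sum_comp]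
  refine Finset.sum_congr rfl fun j _ => ?_
  congr 1
  exact comp_equiv_dotProduct_comp_equiv (star (x (e i))) (x (e j)) f

theorem con_reindex {ι ι' σ σ' : Type} [Fintype ι] [Fintype ι'] [Fintype σ] [Fintype σ']
    (e : ι' ≃ ι) (f : σ' ≃ σ) (cl ck : ι → ι → ℂ) (V : ι → Matrix σ σ ℂ)
    (h : ∀ x, H15.Cpk.Con cl ck V x) (y : ι' → σ' → ℂ) :
    H15.Cpk.Con (fun i j => cl (e i) (e j)) (fun i j => ck (e i) (e j))
      (fun i => (V (e i)).submatrix f f) y := by
  have h1 := h (fun i => y (e.symm i) ∘ f.symm)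
  unfold H15.Cpk.Con at h1 ⊢
  rw [← fm_reindex e f cl, ← fm_reindex e f ck] at h1
  have e1 : (fun i => (y (e.symm (e i)) ∘ f.symm) ∘ f) = y := by
    funext i a; simp
  rw [e1] at h1
  simpa only [submatrix_mulVec_equiv, Equiv.symm_apply_apply] using h1

theorem kq_of {k : X → X → ℂ} (hk : IsKernel k) : Kq k := by
  constructor
  · intro x y
    have := (hk 2 ![x, y]).1.apply 1 0
    simpa using this.symm
  · intro ι _ z σ _ x
    rw [← fm_reindex (Fintype.equivFin ι).symm (Equiv.refl σ)]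
    set z' := fun i => z ((Fintype.equivFin ι).symm i)
    set x' := fun i => x ((Fintype.equivFin ι).symm i) ∘ Equiv.refl σ
    have h1 : fm σ (fun i j => k (z' i) (z' j)) x' x'
        = ∑ a, star (fun i => x' i a) ⬝ᵥ ((Matrix.of fun i j => k (z' i) (z' j)) *ᵥ fun i => x' i a) := by
      simp only [fm_apply, dotProduct, mulVec, Finset.mul_sum, of_apply, Pi.star_apply]
      symm
      rw [Finset.sum_comm]
      refine Finset.sum_congr rfl fun i _ => ?_
      rw [Finset.sum_comm]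
      refine Finset.sum_congr rfl fun a _ => Finset.sum_congr rfl fun j _ => ?_
      ring
    have h2 : (0 : ℂ) ≤ fm σ (fun i j => k (z' i) (z' j)) x' x' := by
      rw [h1]
      exact Finset.sum_nonneg fun a _ => (hk _ z').dotProduct_mulVec_nonneg _
    exact (Complex.le_def.mp h2).1

theorem pick_form (k l : X → X → ℂ) {n N : ℕ} (z : Fin n → X)
    (W : Fin n → Matrix (Fin N) (Fin N) ℂ) (y : Fin n × Fin N → ℂ) :
    star y ⬝ᵥ (pick k l z W *ᵥ y)
      = fm _ (fun i j => l (z i) (z j)) (fun i a => y (i, a)) (fun i a => y (i, a))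
        - fm _ (fun i j => k (z i) (z j)) (fun i => (W i)ᴴ *ᵥ fun a => y (i, a))
          (fun i => (W i)ᴴ *ᵥ fun a => y (i, a)) := by
  have h1 : star y ⬝ᵥ (pick k l z W *ᵥ y) = ∑ i, ∑ j, star (fun a => y (i, a)) ⬝ᵥ
      ((l (z i) (z j) • (1 : Matrix (Fin N) (Fin N) ℂ) - k (z i) (z j) • (W i * (W j)ᴴ)) *ᵥ
        fun a => y (j, a)) := by
    simp only [dotProduct, mulVec, pick, Fintype.sum_prod_type, of_apply, Finset.mul_sum,
      Pi.star_apply]
    refine Finset.sum_congr rfl fun i _ => ?_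
    rw [Finset.sum_comm]
  rw [h1, fm_apply, fm_apply, ← Finset.sum_sub_distrib]
  refine Finset.sum_congr rfl fun i _ => ?_
  rw [← Finset.sum_sub_distrib]
  refine Finset.sum_congr rfl fun j _ => ?_
  rw [sub_mulVec, smul_mulVec, smul_mulVec, one_mulVec, dotProduct_sub, dotProduct_smul,
    dotProduct_smul, star_mulVec, conjTranspose_conjTranspose, ← mulVec_mulVec,
    dotProduct_mulVec _ (W i), smul_eq_mul, smul_eq_mul]

theorem pick_iff {k l : X → X → ℂ} (hk : ∀ x y, k y x = conj (k x y))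
    (hl : ∀ x y, l y x = conj (l x y)) {n N : ℕ} (z : Fin n → X)
    (W : Fin n → Matrix (Fin N) (Fin N) ℂ) :
    (pick k l z W).PosSemidef ↔
      ∀ x, H15.Cpk.Con (fun i j => l (z i) (z j)) (fun i j => k (z i) (z j)) (fun i => (W i)ᴴ) x := by
  constructor
  · intro h x
    have h1 := h.dotProduct_mulVec_nonneg (fun p => x p.1 p.2)
    rw [pick_form] at h1
    have h2 := (Complex.le_def.mp h1).1
    unfold H15.Cpk.Con
    simpa using h2
  · intro h
    refine .of_dotProduct_mulVec_nonneg ?_ ?_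
    · ext p q
      have e1 : (W p.1 * (W q.1)ᴴ) p.2 q.2 = conj ((W q.1 * (W p.1)ᴴ) q.2 p.2) := by
        have : W p.1 * (W q.1)ᴴ = (W q.1 * (W p.1)ᴴ)ᴴ := by simp [conjTranspose_mul]
        rw [this]; rfl
      simp only [pick, conjTranspose_apply, of_apply, Matrix.sub_apply, Matrix.smul_apply, smul_eq_mul,
        RCLike.star_def, map_sub, map_mul, ← hk, ← hl, e1, Matrix.one_apply, eq_comm (a := q.2)]
      split_ifs <;> simp
    · intro y
      rw [pick_form, Complex.le_def]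
      have h1 := h (fun i a => y (i, a))
      unfold H15.Cpk.Con at h1
      have h2 := congrArg Complex.im
        (fm_symm (fun i j => l (z i) (z j)) (fun i j => hl _ _) (fun i a => y (i, a))
          (fun i a => y (i, a)))
      have h3 := congrArg Complex.im
        (fm_symm (fun i j => k (z i) (z j)) (fun i j => hk _ _)
          (fun i => (W i)ᴴ *ᵥ fun a => y (i, a)) (fun i => (W i)ᴴ *ᵥ fun a => y (i, a)))
      rw [Complex.conj_im] at h2 h3
      rw [Complex.sub_re, Complex.sub_im, Complex.zero_re, Complex.zero_im]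
      constructor <;> linarith

theorem kq_ps {g : X → X → ℂ} (h : Kq g) {ι : Type} [Fintype ι] (z : ι → X) :
    PS (fun i j => g (z i) (z j)) :=
  ⟨fun _ _ => h.1 _ _, fun a => by
    simpa [fm_apply, dotProduct, sf] using h.2 ι z Unit (fun i _ => a i)⟩

/-- The kernel `k` of the degenerate example. -/
def k3 : Fin 3 → Fin 3 → ℂ := ![![2, 0, 1], ![0, 2, 1], ![1, 1, 2]]

/-- The kernel `l` of the degenerate example. -/
def l3 : Fin 3 → Fin 3 → ℂ := ![![0, 0, 0], ![0, 2, 1], ![0, 1, 2]]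

theorem k3s (x y : Fin 3) : k3 y x = conj (k3 x y) := by
  fin_cases x <;> fin_cases y <;> simp [k3, map_ofNat]

theorem l3s (x y : Fin 3) : l3 y x = conj (l3 x y) := by
  fin_cases x <;> fin_cases y <;> simp [l3, map_ofNat]

theorem k3k : IsKernel k3 := by
  have : PS k3 := ⟨fun i j => k3s i j, fun a => by
    simp [sf, k3, Fin.sum_univ_three]
    nlinarith [sq_nonneg ((a 0).re + (a 2).re), sq_nonneg ((a 1).re + (a 2).re),
      sq_nonneg ((a 0).im + (a 2).im), sq_nonneg ((a 1).im + (a 2).im), sq_nonneg (a 0).re,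
      sq_nonneg (a 1).re, sq_nonneg (a 0).im, sq_nonneg (a 1).im]⟩
  exact fun n z => PS.mat (kq_ps this.kq z)

theorem l3k : IsKernel l3 := by
  have : PS l3 := ⟨fun i j => l3s i j, fun a => by
    simp [sf, l3, Fin.sum_univ_three]
    nlinarith [sq_nonneg ((a 1).re + (a 2).re), sq_nonneg ((a 1).im + (a 2).im),
      sq_nonneg (a 2).re, sq_nonneg (a 1).re, sq_nonneg (a 2).im, sq_nonneg (a 1).im]⟩
  exact fun n z => PS.mat (kq_ps this.kq z)

theorem nz {N : ℕ} (w : Fin N → ℂ) (h : (star w ⬝ᵥ w).re ≤ 0) : w = 0 := by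
  have h1 := Complex.le_def.mp (dotProduct_star_self_nonneg w)
  exact dotProduct_star_self_eq_zero.mp (Complex.ext (le_antisymm h h1.1) h1.2.symm)

theorem meq {N : ℕ} (A B : Matrix (Fin N) (Fin N) ℂ) (h : ∀ u, Aᴴ *ᵥ u = Bᴴ *ᵥ u) : A = B := by
  have : Aᴴ = Bᴴ := by
    ext i j
    have := congrFun (h (Pi.single j 1)) i
    simpa using this
  simpa using congrArg conjTranspose this

/-- two-point form -/
def QQ {N : ℕ} (u v : Fin N → ℂ) : ℝ :=
  2 * (star u ⬝ᵥ u).re + (star u ⬝ᵥ v).re + (star v ⬝ᵥ u).re + 2 * (star v ⬝ᵥ v).re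

theorem cp3 : CPPair k3 l3 := by
  intro n N _ _ z W hP
  have hsub : ∀ m (f : Fin m → Fin n) x, H15.Cpk.Con (fun s t => l3 (z (f s)) (z (f t)))
      (fun s t => k3 (z (f s)) (z (f t))) (fun s => (W (f s))ᴴ) x := fun m f =>
    (pick_iff k3s l3s (fun s => z (f s)) (fun s => W (f s))).mp (hP.submatrix (Prod.map f id))
  have hd : ∀ x, k3 x x = 2 := by intro x; fin_cases x <;> simp [k3]
  have h0 : ∀ i, z i = 0 → W i = 0 := by
    intro i hi
    refine meq _ _ fun u => ?_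
    have := hsub 1 ![i] ![u]
    simp [H15.Cpk.Con, fm_apply, hi, k3, l3] at this
    rw [conjTranspose_zero, zero_mulVec]
    exact nz _ (by linarith)
  have hu : ∀ i j, z i = z j → W i = W j := by
    intro i j hij
    refine meq _ _ fun u => ?_
    have := hsub 2 ![i, j] ![u, -u]
    simp [H15.Cpk.Con, fm_apply, hij, hd, Fin.sum_univ_two, mulVec_neg] at this
    refine sub_eq_zero.mp (nz _ ?_)
    simp only [star_sub, sub_dotProduct, dotProduct_sub, Complex.sub_re]
    linarith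
  have hC : ∀ A : Matrix (Fin N) (Fin N) ℂ,
      (∀ u, (star (Aᴴ *ᵥ u) ⬝ᵥ (Aᴴ *ᵥ u)).re ≤ (star u ⬝ᵥ u).re) →
      ∀ u v, QQ (Aᴴ *ᵥ u) (Aᴴ *ᵥ v) ≤ QQ u v := by
    intro A h u v
    have h1 := h (u + v)
    simp only [mulVec_add, star_add, add_dotProduct, dotProduct_add, Complex.add_re] at h1
    unfold QQ
    linarith [h u, h v]
  have h1 : ∀ i, z i = 1 ∨ z i = 2 →
      ∀ u, (star ((W i)ᴴ *ᵥ u) ⬝ᵥ ((W i)ᴴ *ᵥ u)).re ≤ (star u ⬝ᵥ u).re := by
    intro i hi u
    have := hsub 1 ![i] ![u]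
    rcases hi with hi | hi <;> simp [H15.Cpk.Con, fm_apply, hi, k3, l3] at this <;> linarith
  obtain ⟨A, B, hQ, hA, hB⟩ : ∃ A B : Matrix (Fin N) (Fin N) ℂ,
      (∀ u v, QQ (Aᴴ *ᵥ u) (Bᴴ *ᵥ v) ≤ QQ u v) ∧ (∀ i, z i = 1 → W i = A) ∧
        ∀ i, z i = 2 → W i = B := by
    by_cases a1 : ∃ i, z i = 1 <;> by_cases a2 : ∃ j, z j = 2
    · obtain ⟨i, hi⟩ := a1
      obtain ⟨j, hj⟩ := a2
      refine ⟨W i, W j, fun u v => ?_, fun i' h => hu _ _ (h.trans hi.symm),
        fun i' h => hu _ _ (h.trans hj.symm)⟩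
      have := hsub 2 ![i, j] ![u, v]
      simp [H15.Cpk.Con, fm_apply, hi, hj, k3, l3, Fin.sum_univ_two] at this
      unfold QQ
      linarith
    · obtain ⟨i, hi⟩ := a1
      exact ⟨W i, W i, hC _ (h1 i (Or.inl hi)), fun i' h => hu _ _ (h.trans hi.symm),
        fun j h => absurd ⟨j, h⟩ a2⟩
    · obtain ⟨i, hi⟩ := a2
      exact ⟨W i, W i, hC _ (h1 i (Or.inr hi)), fun j h => absurd ⟨j, h⟩ a1,
        fun i' h => hu _ _ (h.trans hi.symm)⟩
    · refine ⟨0, 0, hC _ fun u => ?_, fun j h => absurd ⟨j, h⟩ a1, fun j h => absurd ⟨j, h⟩ a2⟩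
      have := (Complex.le_def.mp (dotProduct_star_self_nonneg u)).1
      simpa using this
  refine ⟨![0, A, B], fun m x => ?_, fun i => ?_⟩
  · have hM : (pick k3 l3 (fun i : Fin 3 => i) ![0, A, B]).PosSemidef := by
      rw [pick_iff k3s l3s]
      intro y
      have := hQ (y 1) (y 2)
      unfold QQ at this
      simp [H15.Cpk.Con, fm_apply, k3, l3, Fin.sum_univ_three]
      linarith
    exact hM.submatrix (Prod.map x id)
  · have : z i = 0 ∨ z i = 1 ∨ z i = 2 := by
      generalize z i = t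
      fin_cases t <;> simp
    rcases this with h | h | h
    · simp [h, h0 i h]
    · simp [h, hA i h]
    · simp [h, hB i h]

theorem nocert : ¬ ∃ p, Certificate k3 l3 p := by
  rintro ⟨p, hp⟩
  obtain ⟨h1, h2, h3⟩ := hp 2
  have a1 := ((kq_of h1).diag 1).2
  have a2 := ((kq_of h2).diag 1).1
  have a3 := ((kq_of h3).diag 1).1
  simp [defl, k3, l3] at a2 a3
  have a4 : p 2 1 1 = 3 / 4 := by
    rw [a1]
    have : (p 2 1 1).re = 3 / 4 := by
      norm_num at a2 a3
      linarith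
    rw [this]; norm_num
  have a5 := (kq_of h3).row 1 0 (by simp [defl, k3, a4]; norm_num)
  simp [defl, k3] at a5

theorem result :
    ∃ k l : Fin 3 → Fin 3 → ℂ, IsKernel k ∧ IsKernel l ∧ CPPair k l ∧
      ¬ ∃ p : Fin 3 → Fin 3 → Fin 3 → ℂ, Certificate k l p :=
  ⟨k3, l3, k3k, l3k, cp3, nocert⟩

end Pool.Agent.Results.MP_e3a8c8_an.Degenerate
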